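import Mathlib
import Pool.Agent.D0H61.GP.Stm

/-!
# Right order of magnitude: statements

Stronger forms of the last steps of `CC`, `CP`, `GP`: at least `N / (log N) ^ (C + 5)` elements for infinitely many `N` is
replaced by at least `δ N / (log N) ^ (C + 2)`, which is the expected order of magnitude. Every module is a copy of the old
one with small changes (no `log` is lost in CORE, WIN, ONE).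
-/

set_option autoImplicit false

namespace Pool.Agent.D0H61.RO

open Filter Topology MeasureTheory Finset Pool.Agent.D0H61.CC Pool.Agent.D0H61.CP Pool.Agent.D0H61.GP

/-- for some `δ > 0` and infinitely many `N` the set `A` has at least `δ N / (log N) ^ C` elements up to `N` -/
def Bg (C : ℕ) (A : Set ℕ) : Prop :=
  ∃ δ : ℝ, 0 < δ ∧ ∃ᶠ N : ℕ in atTop, δ * (N : ℝ) ≤ (upTo A N).card * Real.log N ^ C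

/-! ### CC -/

/-- **CORE4** (proof of `t_CORE` with the threshold `c₀ |G| / log ^ 2`, `c₀ = c₁ / (12 R)`). -/
def S_CORE4 : Prop := ∀ (κ γ : ℝ) (a b : ℤ) (R : ℝ), κ ≠ 0 → κ ≠ 1 → 0 < γ → 1 ≤ R →
  ∃ c₀ : ℝ, 0 < c₀ ∧ ∃ c : ℝ, 0 < c ∧ ∃ η₀ : ℝ, 0 < η₀ ∧ η₀ ≤ 1 ∧
  ∀ (C : ℕ) (α₀ η : ℝ), 1 / R ≤ α₀ → α₀ ≤ R → 0 < η → η ≤ η₀ →
  ∀ᶠ N : ℕ in atTop, ∀ G : Finset ℕ, (∀ n ∈ G, N < n ∧ (n : ℝ) ≤ (1 + η) * N) →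
    (N : ℝ) ≤ G.card * Real.log N ^ C →
    ENNReal.ofReal (c * η) ≤ volume {α : ℝ | α ∈ Set.Icc α₀ (α₀ * (1 + 3 * η)) ∧
      c₀ * (G.card : ℝ) ≤ Mc κ γ a b G α * Real.log N ^ 2}

open Classical in
/-- **WIN4**: short windows with many elements. Let `N` be large with `δ N ≤ |A ∩ [1, N]| log ^ C N`. Cut `[1, N]` into
the windows `(N_j, (1 + η) N_j]`, `N_j` about `N / (1 + η) ^ j` (as in `t_WIN`); those with `N_j ≤ N / log ^ (C + 1) N`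
contain at most `2 N / log ^ (C + 1) N` elements together; if all the others had less than
`δ' N_j / log ^ C N_j` elements, `δ' = c η δ`, the total would be too small (`log N_j ≥ log N / 2`). -/
def S_WIN4 : Prop := ∀ (C : ℕ) (A : Set ℕ), Bg C A → ∀ η : ℝ, 0 < η → η ≤ 1 →
  ∃ δ : ℝ, 0 < δ ∧ ∃ᶠ N : ℕ in atTop, δ * (N : ℝ) ≤
    (((Icc 1 (2 * N)).filter fun n : ℕ => n ∈ A ∧ N < n ∧ (n : ℝ) ≤ (1 + η) * N).card : ℝ) *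
      Real.log N ^ C

/-- **ONE4** (from CORE4, DEN, WIN4; the proof of `t_ONE`; CORE4 is used with `C + 1` and
`N ≤ |G| log ^ (C + 1)`). -/
def S_ONE4 : Prop := ∀ (C : ℕ) (A : Set ℕ), Bg C A → ∀ (κ γ : ℝ) (a b : ℤ), κ ≠ 0 → κ ≠ 1 → 0 < γ →
  ∀ᵐ α : ℝ, 0 < α → Bg (C + 2) {n : ℕ | n ∈ A ∧ PP (⌊α * n⌋ + a) ∧ PP (⌊γ * α ^ κ * n⌋ + b)}

/-- **GEN4** (from ONE4, as `t_GEN`). -/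
def S_GEN4 : Prop := ∀ (C : ℕ) (A : Set ℕ), Bg C A → ∀ (κ₁ κ₂ γ₁ γ₂ : ℝ) (a b : ℤ), κ₁ ≠ 0 → κ₂ ≠ 0 → κ₁ ≠ κ₂ →
  0 < γ₁ → 0 < γ₂ → ∀ᵐ α : ℝ, 0 < α →
    Bg (C + 2) {n : ℕ | n ∈ A ∧ PP (⌊γ₁ * α ^ κ₁ * n⌋ + a) ∧ PP (⌊γ₂ * α ^ κ₂ * n⌋ + b)}

/-! ### CP and GP -/

/-- **PW4** (from ZP with `τ = 0`): the order of the number of primes in a window (as `t_PW`). -/
def S_PW4 : Prop := ∀ h : ℕ, 1 ≤ h → ∀ η : ℝ, 0 < η → η ≤ 1 → ∃ c : ℝ, 0 < c ∧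
  ∀ᶠ M : ℕ in atTop, c * (M : ℝ) ≤ (pw h η M).card * Real.log M

/-- **CORE5** (from PW, FM2, SV2; `t_CORE2` with the threshold of CORE4). -/
def S_CORE5 : Prop := ∀ h : ℕ, 1 ≤ h → ∀ (κ γ : ℝ) (a b : ℤ) (R : ℝ), κ ≠ 0 → κ ≠ 1 → 0 < γ → 1 ≤ R →
  ∃ c₀ : ℝ, 0 < c₀ ∧ ∃ c : ℝ, 0 < c ∧ ∃ η₀ : ℝ, 0 < η₀ ∧ η₀ ≤ 1 ∧
  ∀ (α₀ η : ℝ), 1 / R ≤ α₀ → α₀ ≤ R → 0 < η → η ≤ η₀ →
  ∀ᶠ N : ℕ in atTop, ∀ G : Finset ℕ, Fam h η N G →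
    ENNReal.ofReal (c * η) ≤ volume {α : ℝ | α ∈ Set.Icc α₀ (α₀ * (1 + 3 * η)) ∧
      c₀ * (G.card : ℝ) ≤ Mc κ γ a b G α * Real.log N ^ 2}

/-- **ONE5** (from PW, PW4, CORE5, DEN; the proof of `t_ONE2`). -/
def S_ONE5 : Prop := ∀ h : ℕ, 1 ≤ h → ∀ (κ γ : ℝ) (a b : ℤ), κ ≠ 0 → κ ≠ 1 → 0 < γ →
  ∀ᵐ α : ℝ, 0 < α → Bg 3 {q : ℕ | q.Prime ∧ PP (⌊α * (q : ℝ) ^ h⌋ + a) ∧ PP (⌊γ * α ^ κ * (q : ℝ) ^ h⌋ + b)}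

/-- **GEN5** (from ONE5, the proof of `t_GEN2`). -/
def S_GEN5 : Prop := ∀ h : ℕ, 1 ≤ h → ∀ (κ₁ κ₂ γ₁ γ₂ : ℝ) (a b : ℤ), κ₁ ≠ 0 → κ₂ ≠ 0 → κ₁ ≠ κ₂ →
  0 < γ₁ → 0 < γ₂ → ∀ᵐ α : ℝ, 0 < α →
    Bg 3 {q : ℕ | q.Prime ∧ PP (⌊γ₁ * α ^ κ₁ * (q : ℝ) ^ h⌋ + a) ∧ PP (⌊γ₂ * α ^ κ₂ * (q : ℝ) ^ h⌋ + b)}

/-- **CORE6** (from PW, FM3 and SV3; `t_CORE3` with the threshold of CORE4). -/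
def S_CORE6 : Prop := ∀ h k : ℕ, 1 ≤ k → k < h → ∀ (κ γ : ℝ) (a b : ℤ) (R : ℝ), κ ≠ 0 → κ * h ≠ k → 0 < γ → 1 ≤ R →
  ∃ c₀ : ℝ, 0 < c₀ ∧ ∃ c : ℝ, 0 < c ∧ ∃ η₀ : ℝ, 0 < η₀ ∧ η₀ ≤ 1 ∧
  ∀ (α₀ η : ℝ), 1 / R ≤ α₀ → α₀ ≤ R → 0 < η → η ≤ η₀ →
  ∀ᶠ M : ℕ in atTop, ENNReal.ofReal (c * η) ≤ volume {α : ℝ | α ∈ Set.Icc α₀ (α₀ * (1 + 3 * η)) ∧
      c₀ * ((pw h η M).card : ℝ) ≤ Md h k κ γ a b (pw h η M) α * Real.log M ^ 2}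

/-- **ONE6** (from PW4, CORE6 and DEN, the proof of `t_ONE3`). -/
def S_ONE6 : Prop := ∀ h k : ℕ, 1 ≤ k → k < h → ∀ (κ γ : ℝ) (a b : ℤ), κ ≠ 0 → κ * h ≠ k → 0 < γ →
  ∀ᵐ α : ℝ, 0 < α → Bg 3 {q : ℕ | q.Prime ∧ PP (⌊α * (q : ℝ) ^ h⌋ + a) ∧ PP (⌊γ * α ^ κ * (q : ℝ) ^ k⌋ + b)}

/-- **GEN6** (from ONE6, the proof of `t_GEN3`). -/
def S_GEN6 : Prop := ∀ h k : ℕ, 1 ≤ k → k < h → ∀ (κ₁ κ₂ γ₁ γ₂ : ℝ) (a b : ℤ), κ₁ ≠ 0 → κ₂ ≠ 0 →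
  κ₁ * k ≠ κ₂ * h → 0 < γ₁ → 0 < γ₂ → ∀ᵐ α : ℝ, 0 < α →
    Bg 3 {q : ℕ | q.Prime ∧ PP (⌊γ₁ * α ^ κ₁ * (q : ℝ) ^ h⌋ + a) ∧ PP (⌊γ₂ * α ^ κ₂ * (q : ℝ) ^ k⌋ + b)}

end Pool.Agent.D0H61.RO
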