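import Mathlib
import Pool.Agent.D0H61.RO.Stm
import Pool.Agent.D0H61.CC.Ch
import Pool.Agent.D0H61.CC.Fin

/-! Measurability of `{α | Bg C (S α)}`. -/

set_option autoImplicit false

namespace Pool.Agent.D0H61.RO

open Filter Topology MeasureTheory Finset Pool.Agent.D0H61.CC

theorem bg_iff (C : ℕ) (A : Set ℕ) : Bg C A ↔ ∃ k : ℕ, ∃ᶠ N : ℕ in atTop,
    1 / ((k : ℝ) + 1) * N ≤ (upTo A N).card * Real.log N ^ C := by
  constructor
  · rintro ⟨δ, hδ, h⟩
    obtain ⟨k, hk⟩ := exists_nat_one_div_lt hδ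
    exact ⟨k, h.mono fun N hN => (mul_le_mul_of_nonneg_right hk.le (Nat.cast_nonneg N)).trans hN⟩
  · rintro ⟨k, h⟩
    exact ⟨1 / ((k : ℝ) + 1), by positivity, h⟩

theorem bg_meas {Ω : Type*} [MeasurableSpace Ω] (C : ℕ) (S : Ω → Set ℕ)
    (hS : ∀ n, MeasurableSet {ω | n ∈ S ω}) : MeasurableSet {ω | Bg C (S ω)} := by
  have e : {ω | Bg C (S ω)} = ⋃ k : ℕ, ⋂ N0 : ℕ, ⋃ N : ℕ, ⋃ (_ : N0 ≤ N),
      {ω | 1 / ((k : ℝ) + 1) * (N : ℝ) ≤ (upTo (S ω) N).card * Real.log N ^ C} := by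
    ext ω
    rw [Set.mem_iUnion]
    change Bg C (S ω) ↔ _
    rw [bg_iff]
    refine exists_congr fun k => ?_
    rw [frequently_atTop, Set.mem_iInter]
    refine forall_congr' fun N0 => ?_
    simp only [Set.mem_iUnion]
    constructor
    · rintro ⟨N, h1, h2⟩
      exact ⟨N, h1, h2⟩
    · rintro ⟨N, h1, h2⟩
      exact ⟨N, h1, h2⟩
  rw [e]
  refine MeasurableSet.iUnion fun k => MeasurableSet.iInter fun N0 => MeasurableSet.iUnion fun N =>
    MeasurableSet.iUnion fun _ => ?_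
  exact measurableSet_le measurable_const ((card_meas S hS N).mul_const _)

theorem Bg.congr {C : ℕ} {A B : Set ℕ} (h : A = B) (hA : Bg C A) : Bg C B := h ▸ hA

theorem Bg.big {C : ℕ} {A : Set ℕ} (h : Bg C A) : Big (C + 1) A := by
  obtain ⟨δ, hδ, h⟩ := h
  unfold Big
  have hlog : ∀ᶠ N : ℕ in atTop, 1 / δ ≤ Real.log N :=
    (Real.tendsto_log_atTop.comp tendsto_natCast_atTop_atTop).eventually_ge_atTop _
  refine (h.and_eventually hlog).mono ?_
  rintro N ⟨h1, h2⟩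
  have h3 : 0 < Real.log N := lt_of_lt_of_le (by positivity) h2
  have h4 : 1 ≤ Real.log N * δ := by rwa [div_le_iff₀ hδ] at h2
  have h5 : (N : ℝ) ≤ Real.log N * (δ * N) := by
    have : (0 : ℝ) ≤ N := Nat.cast_nonneg N
    nlinarith
  calc (N : ℝ) ≤ Real.log N * (δ * N) := h5
    _ ≤ Real.log N * ((upTo A N).card * Real.log N ^ C) := mul_le_mul_of_nonneg_left h1 h3.le
    _ = (upTo A N).card * Real.log N ^ (C + 1) := by ring

theorem Bg.infinite {C : ℕ} {A : Set ℕ} (h : Bg C A) : A.Infinite := h.big.infinite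

end Pool.Agent.D0H61.RO
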