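import Mathlib
import Pool.Agent.D0H61.RO.Bg
import Pool.Agent.D0H61.CC.Sys

/-! Chains and systems with the right order of magnitude. -/

set_option autoImplicit false

namespace Pool.Agent.D0H61.RO

open Filter Topology MeasureTheory Finset Pool.Agent.D0H61.CC

/-- the numbers `p - 1` are a big set -/
theorem bg_primes : Bg 1 {n : ℕ | (n + 1).Prime} := by
  classical
  unfold Bg
  refine ⟨1 / 4, by norm_num, ?_⟩
  apply Filter.Eventually.frequently
  have hlog : ∀ᶠ N : ℕ in atTop, 4 ≤ Real.log N :=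
    (Real.tendsto_log_atTop.comp tendsto_natCast_atTop_atTop).eventually_ge_atTop 4
  have hl2 : ∀ᶠ N : ℕ in atTop, Real.log ((N : ℝ) + 1) ≤ (1 / 8) * N := by
    have h1 : Tendsto (fun x : ℝ => Real.log x / x) atTop (𝓝 0) := by
      have := (Real.isLittleO_pow_log_id_atTop (n := 1)).tendsto_div_nhds_zero
      simpa using this
    have h2 : Tendsto (fun N : ℕ => (N : ℝ) + 1) atTop atTop :=
      tendsto_atTop_add_const_right _ _ tendsto_natCast_atTop_atTop
    have h3 := h1.comp h2
    filter_upwards [h3.eventually (Iio_mem_nhds (show (0 : ℝ) < 1 / 16 by norm_num)), eventually_ge_atTop 1]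
      with N h4 h5
    have hN : (1 : ℝ) ≤ N := by exact_mod_cast h5
    have h6 : Real.log ((N : ℝ) + 1) / ((N : ℝ) + 1) < 1 / 16 := h4
    rw [div_lt_iff₀ (by linarith)] at h6
    linarith
  filter_upwards [hlog, hl2, eventually_ge_atTop 2] with N h1 h2 h3
  have hN : (2 : ℝ) ≤ N := by exact_mod_cast h3
  have h4 := Chebyshev.psi_ge N
  have h5 := Chebyshev.psi_le_primeCounting_mul_log N
  have h6 : (N.primeCounting : ℝ) ≤ (upTo {n : ℕ | (n + 1).Prime} N).card + 1 := by
    have h7 : N.primeCounting ≤ (upTo {n : ℕ | (n + 1).Prime} N).card + 1 := by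
      rw [Nat.primeCounting, Nat.primeCounting', Nat.count_eq_card_filter_range]
      have h9 : (range (N + 1)).filter Nat.Prime ⊆
          (upTo {n : ℕ | (n + 1).Prime} N).image (fun n => n + 1) := by
        intro p hp
        rw [Finset.mem_filter, Finset.mem_range] at hp
        rw [Finset.mem_image]
        refine ⟨p - 1, ?_, ?_⟩
        · rw [mem_upTo]
          have h9 := hp.2.two_le
          refine ⟨⟨by omega, by omega⟩, ?_⟩
          change (p - 1 + 1).Prime
          rw [show p - 1 + 1 = p by omega]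
          exact hp.2
        · have h9 := hp.2.two_le
          omega
      have h10 := (Finset.card_le_card h9).trans Finset.card_image_le
      refine le_trans (le_of_eq ?_) (h10.trans (Nat.le_succ _))
      congr
    exact_mod_cast h7
  have hlog2 : 0.6931471803 < Real.log 2 := Real.log_two_gt_d9
  set U : ℝ := ((upTo {n : ℕ | (n + 1).Prime} N).card : ℝ)
  set L : ℝ := Real.log N
  have hU : 0 ≤ U := by positivity
  have hLN : L ≤ N := (Real.log_le_sub_one_of_pos (by linarith)).trans (by linarith)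
  have hL8 : L ≤ (1 / 8) * N := by
    refine le_trans ?_ h2
    exact Real.log_le_log (by linarith) (by linarith)
  have h7 : N * Real.log 2 - Real.log ((N : ℝ) + 1) ≤ (U + 1) * L := by
    refine h4.trans (h5.trans ?_)
    exact mul_le_mul_of_nonneg_right h6 (by linarith)
  have h8 : (N : ℝ) / 4 ≤ U * L := by nlinarith
  rw [pow_one]
  linarith

theorem t_CH4 (hG : S_GEN4) : ∀ (r C : ℕ) (A : Set ℕ), Bg C A → ∀ g : ℝ, 0 < g → ∀ b : ℤ,
    ∀ᵐ α : Fin r → ℝ, (∀ i, 0 < α i) →
      Bg (C + 2 * r) {n : ℕ | n ∈ A ∧ ∀ i : ℕ, 1 ≤ i → i ≤ 2 * r → PP (⌊g * rho α i * n⌋ + b)} := by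
  intro r
  induction r with
  | zero =>
    intro C A hA g hg b
    refine Filter.Eventually.of_forall fun α _ => ?_
    have e : {n : ℕ | n ∈ A ∧ ∀ i : ℕ, 1 ≤ i → i ≤ 2 * 0 → PP (⌊g * rho α i * n⌋ + b)} = A := by
      ext n
      constructor
      · exact fun h => h.1
      · exact fun h => ⟨h, fun i h1 h2 => by omega⟩
    rw [e]
    exact hA
  | succ r ih =>
    intro C A hA g hg b
    have hm : MeasurableSet {α : Fin (r + 1) → ℝ | (∀ i, 0 < α i) → Bg (C + 2 * (r + 1)) (chS A g b α)} := by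
      have h1 : MeasurableSet {α : Fin (r + 1) → ℝ | ∀ i, 0 < α i} := by
        have e : {α : Fin (r + 1) → ℝ | ∀ i, 0 < α i} = ⋂ i, {α : Fin (r + 1) → ℝ | 0 < α i} := by
          ext α
          simp only [Set.mem_iInter]
          exact Iff.rfl
        rw [e]
        exact MeasurableSet.iInter fun i => measurableSet_lt measurable_const (measurable_pi_apply i)
      have h2 : MeasurableSet {α : Fin (r + 1) → ℝ | Bg (C + 2 * (r + 1)) (chS A g b α)} :=
        bg_meas _ _ fun n => chS_meas A g b n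
      have e : {α : Fin (r + 1) → ℝ | (∀ i, 0 < α i) → Bg (C + 2 * (r + 1)) (chS A g b α)} =
          {α : Fin (r + 1) → ℝ | ∀ i, 0 < α i}ᶜ ∪ {α : Fin (r + 1) → ℝ | Bg (C + 2 * (r + 1)) (chS A g b α)} := by
        ext α
        rw [Set.mem_union, Set.mem_compl_iff]
        exact imp_iff_not_or
      rw [e]
      exact h1.compl.union h2
    refine Pool.Agent.D0H91.MG.fubini_ae' hm ?_
    filter_upwards [hG C A hA 1 2 g g b b one_ne_zero two_ne_zero (by norm_num) hg hg] with t ht
    by_cases ht0 : 0 < t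
    · filter_upwards [ih (C + 2) _ (ht ht0) (g * t ^ 2) (by positivity) b] with β hβ hpos
      have h1 : ∀ i, 0 < β i := by
        intro i
        have := hpos i.succ
        rwa [Fin.cons_succ] at this
      have h2 := hβ h1
      change Bg (C + 2 * (r + 1)) (chS A g b (Fin.cons t β : Fin (r + 1) → ℝ))
      rw [chS_cons]
      have e : C + 2 * (r + 1) = C + 2 + 2 * r := by ring
      rw [e]
      exact h2
    · refine Filter.Eventually.of_forall fun β hpos => ?_
      exact absurd (by simpa using hpos 0) ht0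

/-- chains for almost all ratios -/
theorem chains4 (hG : S_GEN4) (r : ℕ) : ∀ᵐ α : Fin r → ℝ, (∀ i, 0 < α i) →
    Bg (2 * r + 1) {n : ℕ | ∀ i : ℕ, i ≤ 2 * r → (⌊rho α i * n⌋₊ + 1).Prime} := by
  filter_upwards [t_CH4 hG r 1 _ bg_primes 1 one_pos 1] with α hα hpos
  have h1 := hα hpos
  have e : {n : ℕ | n ∈ {n : ℕ | (n + 1).Prime} ∧ ∀ i : ℕ, 1 ≤ i → i ≤ 2 * r → PP (⌊1 * rho α i * n⌋ + 1)} =
      {n : ℕ | ∀ i : ℕ, i ≤ 2 * r → (⌊rho α i * n⌋₊ + 1).Prime} := by
    ext n
    constructor
    · rintro ⟨h2, h3⟩ i hi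
      rcases Nat.eq_zero_or_pos i with h4 | h4
      · rw [h4, rho_zero, one_mul, Nat.floor_natCast]
        exact h2
      · have h5 := h3 i h4 hi
        rw [one_mul] at h5
        exact (PP_floor (mul_nonneg (rho_pos hpos i).le (Nat.cast_nonneg n))).1 h5
    · intro h2
      refine ⟨?_, fun i h3 h4 => ?_⟩
      · have h5 := h2 0 (Nat.zero_le _)
        rw [rho_zero, one_mul, Nat.floor_natCast] at h5
        exact h5
      · rw [one_mul]
        exact (PP_floor (mul_nonneg (rho_pos hpos i).le (Nat.cast_nonneg n))).2 (h2 i h4)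
  change Bg (1 + 2 * r) {n : ℕ | n ∈ {n : ℕ | (n + 1).Prime} ∧
    ∀ i : ℕ, 1 ≤ i → i ≤ 2 * r → PP (⌊1 * rho α i * n⌋ + 1)} at h1
  rw [e] at h1
  rwa [add_comm (2 * r) 1]

theorem sys_main4 (hG : S_GEN4) : ∀ (r C : ℕ) (A : Set ℕ), Bg C A → ∀ (γ : Fin r → Fin 2 → ℝ)
    (e : Fin r → Fin 2 → Fin r → ℝ) (b : Fin r → Fin 2 → ℤ), (∀ j s, 0 < γ j s) →
    (∀ j s i, j < i → e j s i = 0) → (∀ j s, e j s j ≠ 0) → (∀ j, e j 0 j ≠ e j 1 j) →
    ∀ᵐ α : Fin r → ℝ, (∀ i, 0 < α i) → Bg (C + 2 * r) (sysS A γ e b α) := by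
  intro r
  induction r with
  | zero =>
    intro C A hA γ e b _ _ _ _
    refine Filter.Eventually.of_forall fun α _ => ?_
    have e1 : sysS A γ e b α = A := by
      ext n
      constructor
      · exact fun h => h.1
      · exact fun h => ⟨h, fun j => Fin.elim0 j⟩
    rw [e1]
    exact hA
  | succ r ih =>
    intro C A hA γ e b hγ h0 h1 h2
    have hm : MeasurableSet {α : Fin (r + 1) → ℝ | (∀ i, 0 < α i) → Bg (C + 2 * (r + 1)) (sysS A γ e b α)} := by
      have h3 : MeasurableSet {α : Fin (r + 1) → ℝ | ∀ i, 0 < α i} := by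
        have e1 : {α : Fin (r + 1) → ℝ | ∀ i, 0 < α i} = ⋂ i, {α : Fin (r + 1) → ℝ | 0 < α i} := by
          ext α
          simp only [Set.mem_iInter]
          exact Iff.rfl
        rw [e1]
        exact MeasurableSet.iInter fun i => measurableSet_lt measurable_const (measurable_pi_apply i)
      have h4 : MeasurableSet {α : Fin (r + 1) → ℝ | Bg (C + 2 * (r + 1)) (sysS A γ e b α)} :=
        bg_meas _ _ fun n => sysS_meas A γ e b n
      have e1 : {α : Fin (r + 1) → ℝ | (∀ i, 0 < α i) → Bg (C + 2 * (r + 1)) (sysS A γ e b α)} =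
          {α : Fin (r + 1) → ℝ | ∀ i, 0 < α i}ᶜ ∪
            {α : Fin (r + 1) → ℝ | Bg (C + 2 * (r + 1)) (sysS A γ e b α)} := by
        ext α
        rw [Set.mem_union, Set.mem_compl_iff]
        exact imp_iff_not_or
      rw [e1]
      exact h3.compl.union h4
    refine Pool.Agent.D0H91.MG.fubini_ae' hm ?_
    filter_upwards [hG C A hA (e 0 0 0) (e 0 1 0) (γ 0 0) (γ 0 1) (b 0 0) (b 0 1) (h1 0 0) (h1 0 1) (h2 0)
      (hγ 0 0) (hγ 0 1)] with t ht
    by_cases ht0 : 0 < t
    · filter_upwards [ih (C + 2) _ (ht ht0) (fun j s => γ j.succ s * t ^ e j.succ s 0)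
        (fun j s i => e j.succ s i.succ) (fun j s => b j.succ s)
        (fun j s => mul_pos (hγ _ _) (Real.rpow_pos_of_pos ht0 _))
        (fun j s i hji => h0 _ _ _ (Fin.succ_lt_succ_iff.2 hji)) (fun j s => h1 _ _) (fun j => h2 _)] with β hβ hpos
      have h3 : ∀ i, 0 < β i := by
        intro i
        have := hpos i.succ
        rwa [Fin.cons_succ] at this
      have h4 := hβ h3
      have e1 : C + 2 * (r + 1) = C + 2 + 2 * r := by ring
      rw [e1]
      refine Bg.congr ?_ h4
      have hz : ∀ s, mono (γ 0 s) (e 0 s) (Fin.cons t β : Fin (r + 1) → ℝ) = γ 0 s * t ^ e 0 s 0 := by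
        intro s
        rw [mono_cons]
        exact mono_zero _ _ _ fun i => h0 0 s i.succ (Fin.succ_pos i)
      ext n
      constructor
      · rintro ⟨⟨g1, g2, g3⟩, g4⟩
        refine ⟨g1, fun j s => ?_⟩
        refine Fin.cases ?_ (fun j' => ?_) j
        · rw [hz]
          fin_cases s
          · exact g2
          · exact g3
        · have := g4 j' s
          rwa [← mono_cons] at this
      · rintro ⟨g1, g2⟩
        refine ⟨⟨g1, ?_, ?_⟩, fun j s => ?_⟩
        · have := g2 0 0
          rwa [hz] at this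
        · have := g2 0 1
          rwa [hz] at this
        · have := g2 j.succ s
          rwa [mono_cons] at this
    · refine Filter.Eventually.of_forall fun β hpos => ?_
      exact absurd (by simpa using hpos 0) ht0

end Pool.Agent.D0H61.RO
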