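import Mathlib
import Pool.Agent.D0H61.RO.Stm
import Pool.Agent.D0H61.CC.Core
import Pool.Agent.D0H61.GP.Core3

/-! CORE4, CORE5, CORE6: the threshold of the right order of magnitude. -/

set_option autoImplicit false

namespace Pool.Agent.D0H61.RO

open Filter Topology MeasureTheory Finset Pool.Agent.D0H61.CC Pool.Agent.D0H61.CP Pool.Agent.D0H61.GP

theorem t_CORE4 (hFM : S_FM) (hSV : S_SV) : S_CORE4 := by
  intro κ γ a b R hκ0 hκ1 hγ hR
  obtain ⟨c1, hc1, η0, hη0, hη01, h1⟩ := hFM κ γ a b R hκ0 hκ1 hγ hR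
  obtain ⟨C2, hC2, c2, hc2, hc21, h2⟩ := hSV κ γ a b (4 * R) hκ0 hκ1 hγ (by linarith)
  refine ⟨c1 / (12 * R), by positivity, c1 / (4 * C2), by positivity, η0, hη0, hη01, fun C α₀ η hα1 hα2 hη hη1 => ?_⟩
  have hα0 : 0 < α₀ := lt_of_lt_of_le (by positivity) hα1
  filter_upwards [h1 C α₀ η hα1 hα2 hη hη1, h2, ev_log 1, ev_log (12 * R / c1),
    ev_small (C + 2) c2 (c1 * η / 4) hc2 (by positivity), eventually_ge_atTop 1]
    with N g1 g2 g3 g4 g5 g6 G hG hGC
  have hN1 : (1 : ℝ) ≤ N := by exact_mod_cast g6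
  have hN0 : (0 : ℝ) < N := by linarith
  obtain ⟨L, hL⟩ : ∃ L, L = Real.log (N : ℝ) := ⟨_, rfl⟩
  have hL1 : 1 ≤ L := by rw [hL]; exact g3
  have hL0 : 0 < L := by linarith
  have hG2 : ∀ n ∈ G, N < n ∧ n ≤ 2 * N := by
    intro n hn
    obtain ⟨h3, h4⟩ := hG n hn
    refine ⟨h3, ?_⟩
    have h5 : (n : ℝ) ≤ 2 * N := by nlinarith
    exact_mod_cast h5
  have hGp : 0 < (G.card : ℝ) := by
    rcases Nat.eq_zero_or_pos G.card with h0 | h0
    · rw [h0] at hGC
      simp at hGC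
      omega
    · exact_mod_cast h0
  obtain ⟨J, hJ⟩ : ∃ J, J = Set.Icc α₀ (α₀ * (1 + 3 * η)) := ⟨_, rfl⟩
  obtain ⟨M, hM⟩ : ∃ M : ℝ → ℝ, M = fun α : ℝ => (Mc κ γ a b G α : ℝ) := ⟨_, rfl⟩
  obtain ⟨B, hB⟩ : ∃ B, B = {α : ℝ | α ∈ J ∧ c1 / (12 * R) * (G.card : ℝ) ≤ M α * L ^ 2} := ⟨_, rfl⟩
  have hMm : Measurable M := by rw [hM]; exact Mc_meas κ γ a b G
  have hM0 : ∀ α, 0 ≤ M α := by intro α; rw [hM]; positivity
  have hBm : MeasurableSet B := by
    rw [hB, hJ]
    exact measurableSet_Icc.inter (measurableSet_le measurable_const (hMm.mul_const _))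
  have hJR : J ⊆ Set.Icc (1 / (4 * R)) (4 * R) := by
    rw [hJ]
    intro x hx
    constructor
    · refine le_trans ?_ hx.1
      refine le_trans ?_ hα1
      apply one_div_le_one_div_of_le (by linarith) (by linarith)
    · refine hx.2.trans ?_
      have : 1 + 3 * η ≤ 4 := by linarith
      nlinarith
  have hBJ : B ⊆ J := by rw [hB]; exact fun x hx => hx.1
  have hJv : volume J ≠ ⊤ := by rw [hJ]; exact measure_Icc_lt_top.ne
  have hBv : volume B ≠ ⊤ := ne_top_of_le_ne_top hJv (measure_mono hBJ)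
  have i1 : ∫ α in J, M α = (∫ α in B, M α) + ∫ α in J \ B, M α := by
    have hd : J = B ∪ (J \ B) := (Set.union_sdiff_cancel hBJ).symm
    have h3 : ∫ α in B ∪ (J \ B), M α = (∫ α in B, M α) + ∫ α in J \ B, M α := by
      refine setIntegral_union Set.disjoint_sdiff_right ((by rw [hJ]; exact measurableSet_Icc : MeasurableSet J).diff hBm) ?_ ?_
      · rw [hM]; exact Mc_int κ γ a b G _ hBv
      · rw [hM]; exact Mc_int κ γ a b G _ (ne_top_of_le_ne_top hJv (measure_mono Set.sdiff_subset))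
    rwa [← hd] at h3
  have i2 : ∫ α in J \ B, M α ≤ c1 / (12 * R) * (G.card : ℝ) / L ^ 2 * (3 * η * R) := by
    have h3 : ‖∫ α in J \ B, M α‖ ≤ c1 / (12 * R) * (G.card : ℝ) / L ^ 2 * (volume (J \ B)).toReal := by
      refine norm_setIntegral_le_of_norm_le_const (lt_of_le_of_lt (measure_mono Set.sdiff_subset) (lt_top_iff_ne_top.2 hJv)) ?_
      intro x hx
      rw [Real.norm_of_nonneg (hM0 x)]
      have h4 : ¬ (c1 / (12 * R) * (G.card : ℝ) ≤ M x * L ^ 2) := by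
        intro h5
        apply hx.2
        rw [hB]
        exact ⟨hx.1, h5⟩
      push Not at h4
      rw [le_div_iff₀ (by positivity)]
      exact h4.le
    refine (le_abs_self _).trans (h3.trans ?_)
    refine mul_le_mul_of_nonneg_left ?_ (by positivity)
    have h4 : (volume (J \ B)).toReal ≤ (volume J).toReal :=
      ENNReal.toReal_mono hJv (measure_mono Set.sdiff_subset)
    refine h4.trans ?_
    rw [hJ, Real.volume_Icc, ENNReal.toReal_ofReal (by nlinarith)]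
    nlinarith
  have i3 := g2 G hG2 B hBm (hBJ.trans hJR)
  have i4 := g1 G hG hGC
  rw [← hL] at g4 g5 i3 i4 hGC
  have i3' : ∫ α in B, M α ≤ C2 * G.card / L ^ 2 * (volume B).toReal + (N : ℝ) ^ (1 - c2) := by
    rw [hM]; exact i3
  have i4' : c1 * η * G.card / L ^ 2 ≤ ∫ α in J, M α := by
    rw [hM, hJ]; exact i4
  -- the small terms
  have i5 : (N : ℝ) ^ (1 - c2) ≤ c1 * η * G.card / L ^ 2 / 4 := by
    have h3 : (N : ℝ) ^ (1 - c2) * L ^ (C + 2) ≤ c1 * η / 4 * (G.card * L ^ C) :=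
      g5.trans (mul_le_mul_of_nonneg_left hGC (by positivity))
    have h4 : L ^ (C + 2) = L ^ C * L ^ 2 := pow_add _ _ _
    have hLC : 0 < L ^ C := by positivity
    rw [div_div, le_div_iff₀ (by positivity)]
    have h5 : (N : ℝ) ^ (1 - c2) * L ^ 2 * L ^ C ≤ c1 * η / 4 * G.card * L ^ C := by
      calc _ = (N : ℝ) ^ (1 - c2) * L ^ (C + 2) := by rw [h4]; ring
        _ ≤ _ := h3
        _ = _ := by ring
    have h6 := le_of_mul_le_mul_right h5 hLC
    linarith
  have i6 : c1 / (12 * R) * (G.card : ℝ) / L ^ 2 * (3 * η * R) ≤ c1 * η * G.card / L ^ 2 / 4 := by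
    apply le_of_eq
    field_simp
    norm_num
  have i7 : c1 * η * G.card / L ^ 2 / 2 ≤ C2 * G.card / L ^ 2 * (volume B).toReal := by linarith
  have i8 : c1 / (4 * C2) * η ≤ (volume B).toReal := by
    have h3 : c1 * η * G.card / L ^ 2 / 2 = (G.card / L ^ 2) * (c1 * η / 2) := by ring
    have h4 : C2 * G.card / L ^ 2 * (volume B).toReal = (G.card / L ^ 2) * (C2 * (volume B).toReal) := by ring
    rw [h3, h4] at i7
    have h5 := le_of_mul_le_mul_left i7 (by positivity)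
    have h6 : 0 ≤ (volume B).toReal := ENNReal.toReal_nonneg
    have h7 : c1 * η / 2 / C2 ≤ (volume B).toReal := by
      rw [div_le_iff₀ hC2]
      linarith
    refine le_trans ?_ h7
    rw [div_div, div_mul_eq_mul_div, div_le_div_iff₀ (by positivity) (by positivity)]
    have : 0 ≤ c1 * η * C2 := by positivity
    nlinarith
  have h9 : ENNReal.ofReal (c1 / (4 * C2) * η) ≤ volume B := by
    rw [← ENNReal.ofReal_toReal hBv]
    exact ENNReal.ofReal_le_ofReal i8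
  refine h9.trans (le_of_eq ?_)
  rw [hB, hJ, hM, hL]

theorem t_CORE5 (hPW : S_PW) (hFM : S_FM2) (hSV : S_SV2) : S_CORE5 := by
  intro h hh κ γ a b R hκ0 hκ1 hγ hR
  have hh0 : (0 : ℝ) < h := by exact_mod_cast hh
  obtain ⟨c1, hc1, η0, hη0, hη01, h1⟩ := hFM h hh κ γ a b R hκ0 hκ1 hγ hR
  obtain ⟨C2, hC2, c2, hc2, hc21, h2⟩ := hSV (1 / (2 * h) : ℝ) (by positivity) κ γ a b (4 * R) hκ0 hκ1 hγ (by linarith)
  refine ⟨c1 / (12 * R), by positivity, c1 / (4 * C2), by positivity, η0, hη0, hη01, fun α₀ η hα1 hα2 hη hη1 => ?_⟩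
  obtain ⟨p1, -, -, p4⟩ := hPW h hh η hη (hη1.trans hη01)
  have hα0 : 0 < α₀ := lt_of_lt_of_le (by positivity) hα1
  filter_upwards [h1 α₀ η hα1 hα2 hη hη1, h2, ev_log 1, ev_log (12 * R / c1),
    ev_small 2 c2 (c1 * η / 4) hc2 (by positivity), eventually_ge_atTop 1, p4]
    with N g1 g2 g3 g4 g5 g6 g7 G hF
  have hG := p1 N G hF
  have hGC := g7 G hF
  have hN1 : (1 : ℝ) ≤ N := by exact_mod_cast g6
  have hN0 : (0 : ℝ) < N := by linarith
  obtain ⟨L, hL⟩ : ∃ L, L = Real.log (N : ℝ) := ⟨_, rfl⟩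
  have hL1 : 1 ≤ L := by rw [hL]; exact g3
  have hL0 : 0 < L := by linarith
  have hG2 : ∀ n ∈ G, N < n ∧ n ≤ 2 * N := by
    intro n hn
    obtain ⟨h3, h4⟩ := hG n hn
    refine ⟨h3, ?_⟩
    have h5 : (n : ℝ) ≤ 2 * N := by nlinarith
    exact_mod_cast h5
  have hGp : 0 < (G.card : ℝ) := by
    refine lt_of_lt_of_le ?_ hGC
    positivity
  obtain ⟨J, hJ⟩ : ∃ J, J = Set.Icc α₀ (α₀ * (1 + 3 * η)) := ⟨_, rfl⟩
  obtain ⟨M, hM⟩ : ∃ M : ℝ → ℝ, M = fun α : ℝ => (Mc κ γ a b G α : ℝ) := ⟨_, rfl⟩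
  obtain ⟨B, hB⟩ : ∃ B, B = {α : ℝ | α ∈ J ∧ c1 / (12 * R) * (G.card : ℝ) ≤ M α * L ^ 2} := ⟨_, rfl⟩
  have hMm : Measurable M := by rw [hM]; exact Mc_meas κ γ a b G
  have hM0 : ∀ α, 0 ≤ M α := by intro α; rw [hM]; positivity
  have hBm : MeasurableSet B := by
    rw [hB, hJ]
    exact measurableSet_Icc.inter (measurableSet_le measurable_const (hMm.mul_const _))
  have hJR : J ⊆ Set.Icc (1 / (4 * R)) (4 * R) := by
    rw [hJ]
    intro x hx
    constructor
    · refine le_trans ?_ hx.1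
      refine le_trans ?_ hα1
      apply one_div_le_one_div_of_le (by linarith) (by linarith)
    · refine hx.2.trans ?_
      have : 1 + 3 * η ≤ 4 := by linarith
      nlinarith
  have hBJ : B ⊆ J := by rw [hB]; exact fun x hx => hx.1
  have hJv : volume J ≠ ⊤ := by rw [hJ]; exact measure_Icc_lt_top.ne
  have hBv : volume B ≠ ⊤ := ne_top_of_le_ne_top hJv (measure_mono hBJ)
  have i1 : ∫ α in J, M α = (∫ α in B, M α) + ∫ α in J \ B, M α := by
    have hd : J = B ∪ (J \ B) := (Set.union_sdiff_cancel hBJ).symm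
    have h3 : ∫ α in B ∪ (J \ B), M α = (∫ α in B, M α) + ∫ α in J \ B, M α := by
      refine setIntegral_union Set.disjoint_sdiff_right ((by rw [hJ]; exact measurableSet_Icc : MeasurableSet J).diff hBm) ?_ ?_
      · rw [hM]; exact Mc_int κ γ a b G _ hBv
      · rw [hM]; exact Mc_int κ γ a b G _ (ne_top_of_le_ne_top hJv (measure_mono Set.sdiff_subset))
    rwa [← hd] at h3
  have i2 : ∫ α in J \ B, M α ≤ c1 / (12 * R) * (G.card : ℝ) / L ^ 2 * (3 * η * R) := by
    have h3 : ‖∫ α in J \ B, M α‖ ≤ c1 / (12 * R) * (G.card : ℝ) / L ^ 2 * (volume (J \ B)).toReal := by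
      refine norm_setIntegral_le_of_norm_le_const (lt_of_le_of_lt (measure_mono Set.sdiff_subset) (lt_top_iff_ne_top.2 hJv)) ?_
      intro x hx
      rw [Real.norm_of_nonneg (hM0 x)]
      have h4 : ¬ (c1 / (12 * R) * (G.card : ℝ) ≤ M x * L ^ 2) := by
        intro h5
        apply hx.2
        rw [hB]
        exact ⟨hx.1, h5⟩
      push Not at h4
      rw [le_div_iff₀ (by positivity)]
      exact h4.le
    refine (le_abs_self _).trans (h3.trans ?_)
    refine mul_le_mul_of_nonneg_left ?_ (by positivity)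
    have h4 : (volume (J \ B)).toReal ≤ (volume J).toReal :=
      ENNReal.toReal_mono hJv (measure_mono Set.sdiff_subset)
    refine h4.trans ?_
    rw [hJ, Real.volume_Icc, ENNReal.toReal_ofReal (by nlinarith)]
    nlinarith
  have i3 := g2 G hG2 hGC B hBm (hBJ.trans hJR)
  have i4 := g1 G hF
  rw [← hL] at g4 g5 i3 i4
  have i3' : ∫ α in B, M α ≤ C2 * G.card / L ^ 2 * (volume B).toReal + G.card * (N : ℝ) ^ (-c2) := by
    rw [hM]; exact i3
  have i4' : c1 * η * G.card / L ^ 2 ≤ ∫ α in J, M α := by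
    rw [hM, hJ]; exact i4
  -- the small terms
  have i5 : (G.card : ℝ) * (N : ℝ) ^ (-c2) ≤ c1 * η * G.card / L ^ 2 / 4 := by
    have e0 : (N : ℝ) ^ (1 - c2) = N * (N : ℝ) ^ (-c2) := by
      rw [sub_eq_add_neg, Real.rpow_add hN0, Real.rpow_one]
    rw [e0] at g5
    have h4 : (N : ℝ) ^ (-c2) * L ^ 2 ≤ c1 * η / 4 := by
      have : (N : ℝ) * ((N : ℝ) ^ (-c2) * L ^ 2) ≤ N * (c1 * η / 4) := by linarith
      exact le_of_mul_le_mul_left this hN0
    rw [div_div, le_div_iff₀ (by positivity)]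
    have h5 : (G.card : ℝ) * ((N : ℝ) ^ (-c2) * L ^ 2) ≤ G.card * (c1 * η / 4) :=
      mul_le_mul_of_nonneg_left h4 hGp.le
    linarith
  have i6 : c1 / (12 * R) * (G.card : ℝ) / L ^ 2 * (3 * η * R) ≤ c1 * η * G.card / L ^ 2 / 4 := by
    apply le_of_eq
    field_simp
    norm_num
  have i7 : c1 * η * G.card / L ^ 2 / 2 ≤ C2 * G.card / L ^ 2 * (volume B).toReal := by linarith
  have i8 : c1 / (4 * C2) * η ≤ (volume B).toReal := by
    have h3 : c1 * η * G.card / L ^ 2 / 2 = (G.card / L ^ 2) * (c1 * η / 2) := by ring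
    have h4 : C2 * G.card / L ^ 2 * (volume B).toReal = (G.card / L ^ 2) * (C2 * (volume B).toReal) := by ring
    rw [h3, h4] at i7
    have h5 := le_of_mul_le_mul_left i7 (by positivity)
    have h6 : 0 ≤ (volume B).toReal := ENNReal.toReal_nonneg
    have h7 : c1 * η / 2 / C2 ≤ (volume B).toReal := by
      rw [div_le_iff₀ hC2]
      linarith
    refine le_trans ?_ h7
    rw [div_div, div_mul_eq_mul_div, div_le_div_iff₀ (by positivity) (by positivity)]
    have : 0 ≤ c1 * η * C2 := by positivity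
    nlinarith
  have h9 : ENNReal.ofReal (c1 / (4 * C2) * η) ≤ volume B := by
    rw [← ENNReal.ofReal_toReal hBv]
    exact ENNReal.ofReal_le_ofReal i8
  refine h9.trans (le_of_eq ?_)
  rw [hB, hJ, hM, hL]

theorem t_CORE6 (hPW : S_PW) (hFM : S_FM3) (hSV : S_SV3) : S_CORE6 := by
  intro h k hk hkh κ γ a b R hκ0 hκ1 hγ hR
  have hh : 1 ≤ h := by omega
  obtain ⟨c1, hc1, η0, hη0, hη01, h1⟩ := hFM h k hk hkh κ γ a b R hκ0 hκ1 hγ hR
  obtain ⟨C2, hC2, c2, hc2, hc21, h2⟩ := hSV h k hk hkh κ γ a b (4 * R) hκ0 hγ (by linarith)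
  refine ⟨c1 / (12 * R), by positivity, c1 / (4 * C2), by positivity, η0, hη0, hη01, fun α₀ η hα1 hα2 hη hη1 => ?_⟩
  obtain ⟨-, -, p3, -⟩ := hPW h hh η hη (hη1.trans hη01)
  have p4 := pw_card hh hη (hη1.trans hη01) p3
  have hα0 : 0 < α₀ := lt_of_lt_of_le (by positivity) hα1
  filter_upwards [h1 α₀ η hα1 hα2 hη hη1, h2, ev_log 1, ev_log (12 * R / c1),
    ev_small 2 c2 (c1 * η / 4) hc2 (by positivity), eventually_ge_atTop 1, p4]
    with N g1 g2 g3 g4 g5 g6 g7
  obtain ⟨G, hGd⟩ : ∃ G, G = pw h η N := ⟨_, rfl⟩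
  rw [← hGd] at g1 g7 ⊢
  have hGC := g7
  have hN1 : (1 : ℝ) ≤ N := by exact_mod_cast g6
  have hN0 : (0 : ℝ) < N := by linarith
  obtain ⟨L, hL⟩ : ∃ L, L = Real.log (N : ℝ) := ⟨_, rfl⟩
  have hL1 : 1 ≤ L := by rw [hL]; exact g3
  have hL0 : 0 < L := by linarith
  have hG2 : ∀ n ∈ G, N < n ∧ n ≤ 2 * N := by
    rw [hGd]
    exact pw_le hh hη (hη1.trans hη01)
  have hGp : 0 < (G.card : ℝ) := by
    refine lt_of_lt_of_le ?_ hGC
    positivity
  obtain ⟨J, hJ⟩ : ∃ J, J = Set.Icc α₀ (α₀ * (1 + 3 * η)) := ⟨_, rfl⟩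
  obtain ⟨M, hM⟩ : ∃ M : ℝ → ℝ, M = fun α : ℝ => (Md h k κ γ a b G α : ℝ) := ⟨_, rfl⟩
  obtain ⟨B, hB⟩ : ∃ B, B = {α : ℝ | α ∈ J ∧ c1 / (12 * R) * (G.card : ℝ) ≤ M α * L ^ 2} := ⟨_, rfl⟩
  have hMm : Measurable M := by rw [hM]; exact Md_meas h k κ γ a b G
  have hM0 : ∀ α, 0 ≤ M α := by intro α; rw [hM]; positivity
  have hBm : MeasurableSet B := by
    rw [hB, hJ]
    exact measurableSet_Icc.inter (measurableSet_le measurable_const (hMm.mul_const _))
  have hJR : J ⊆ Set.Icc (1 / (4 * R)) (4 * R) := by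
    rw [hJ]
    intro x hx
    constructor
    · refine le_trans ?_ hx.1
      refine le_trans ?_ hα1
      apply one_div_le_one_div_of_le (by linarith) (by linarith)
    · refine hx.2.trans ?_
      have : 1 + 3 * η ≤ 4 := by linarith
      nlinarith
  have hBJ : B ⊆ J := by rw [hB]; exact fun x hx => hx.1
  have hJv : volume J ≠ ⊤ := by rw [hJ]; exact measure_Icc_lt_top.ne
  have hBv : volume B ≠ ⊤ := ne_top_of_le_ne_top hJv (measure_mono hBJ)
  have i1 : ∫ α in J, M α = (∫ α in B, M α) + ∫ α in J \ B, M α := by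
    have hd : J = B ∪ (J \ B) := (Set.union_sdiff_cancel hBJ).symm
    have h3 : ∫ α in B ∪ (J \ B), M α = (∫ α in B, M α) + ∫ α in J \ B, M α := by
      refine setIntegral_union Set.disjoint_sdiff_right ((by rw [hJ]; exact measurableSet_Icc : MeasurableSet J).diff hBm) ?_ ?_
      · rw [hM]; exact Md_int h k κ γ a b G _ hBv
      · rw [hM]; exact Md_int h k κ γ a b G _ (ne_top_of_le_ne_top hJv (measure_mono Set.sdiff_subset))
    rwa [← hd] at h3
  have i2 : ∫ α in J \ B, M α ≤ c1 / (12 * R) * (G.card : ℝ) / L ^ 2 * (3 * η * R) := by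
    have h3 : ‖∫ α in J \ B, M α‖ ≤ c1 / (12 * R) * (G.card : ℝ) / L ^ 2 * (volume (J \ B)).toReal := by
      refine norm_setIntegral_le_of_norm_le_const (lt_of_le_of_lt (measure_mono Set.sdiff_subset) (lt_top_iff_ne_top.2 hJv)) ?_
      intro x hx
      rw [Real.norm_of_nonneg (hM0 x)]
      have h4 : ¬ (c1 / (12 * R) * (G.card : ℝ) ≤ M x * L ^ 2) := by
        intro h5
        apply hx.2
        rw [hB]
        exact ⟨hx.1, h5⟩
      push Not at h4
      rw [le_div_iff₀ (by positivity)]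
      exact h4.le
    refine (le_abs_self _).trans (h3.trans ?_)
    refine mul_le_mul_of_nonneg_left ?_ (by positivity)
    have h4 : (volume (J \ B)).toReal ≤ (volume J).toReal :=
      ENNReal.toReal_mono hJv (measure_mono Set.sdiff_subset)
    refine h4.trans ?_
    rw [hJ, Real.volume_Icc, ENNReal.toReal_ofReal (by nlinarith)]
    nlinarith
  have i3 := g2 G hG2 hGC B hBm (hBJ.trans hJR)
  have i4 := g1
  rw [← hL] at g4 g5 i3 i4
  have i3' : ∫ α in B, M α ≤ C2 * G.card / L ^ 2 * (volume B).toReal + G.card * (N : ℝ) ^ (-c2) := by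
    rw [hM]; exact i3
  have i4' : c1 * η * G.card / L ^ 2 ≤ ∫ α in J, M α := by
    rw [hM, hJ]; exact i4
  -- the small terms
  have i5 : (G.card : ℝ) * (N : ℝ) ^ (-c2) ≤ c1 * η * G.card / L ^ 2 / 4 := by
    have e0 : (N : ℝ) ^ (1 - c2) = N * (N : ℝ) ^ (-c2) := by
      rw [sub_eq_add_neg, Real.rpow_add hN0, Real.rpow_one]
    rw [e0] at g5
    have h4 : (N : ℝ) ^ (-c2) * L ^ 2 ≤ c1 * η / 4 := by
      have : (N : ℝ) * ((N : ℝ) ^ (-c2) * L ^ 2) ≤ N * (c1 * η / 4) := by linarith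
      exact le_of_mul_le_mul_left this hN0
    rw [div_div, le_div_iff₀ (by positivity)]
    have h5 : (G.card : ℝ) * ((N : ℝ) ^ (-c2) * L ^ 2) ≤ G.card * (c1 * η / 4) :=
      mul_le_mul_of_nonneg_left h4 hGp.le
    linarith
  have i6 : c1 / (12 * R) * (G.card : ℝ) / L ^ 2 * (3 * η * R) ≤ c1 * η * G.card / L ^ 2 / 4 := by
    apply le_of_eq
    field_simp
    norm_num
  have i7 : c1 * η * G.card / L ^ 2 / 2 ≤ C2 * G.card / L ^ 2 * (volume B).toReal := by linarith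
  have i8 : c1 / (4 * C2) * η ≤ (volume B).toReal := by
    have h3 : c1 * η * G.card / L ^ 2 / 2 = (G.card / L ^ 2) * (c1 * η / 2) := by ring
    have h4 : C2 * G.card / L ^ 2 * (volume B).toReal = (G.card / L ^ 2) * (C2 * (volume B).toReal) := by ring
    rw [h3, h4] at i7
    have h5 := le_of_mul_le_mul_left i7 (by positivity)
    have h6 : 0 ≤ (volume B).toReal := ENNReal.toReal_nonneg
    have h7 : c1 * η / 2 / C2 ≤ (volume B).toReal := by
      rw [div_le_iff₀ hC2]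
      linarith
    refine le_trans ?_ h7
    rw [div_div, div_mul_eq_mul_div, div_le_div_iff₀ (by positivity) (by positivity)]
    have : 0 ≤ c1 * η * C2 := by positivity
    nlinarith
  have h9 : ENNReal.ofReal (c1 / (4 * C2) * η) ≤ volume B := by
    rw [← ENNReal.ofReal_toReal hBv]
    exact ENNReal.ofReal_le_ofReal i8
  refine h9.trans (le_of_eq ?_)
  rw [hB, hJ, hM, hL]

end Pool.Agent.D0H61.RO
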