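import Pool.Agent.D0H61.CC.Final
import Pool.Agent.D0H61.CP.Final
import Pool.Agent.D0H61.RO.Core4
import Pool.Agent.D0H61.RO.Ch4
import Pool.Agent.D0H70.RO.Win4
import Pool.Agent.D0H96.RO.One4
import Pool.Agent.D0H96.RO.Gen4
import Pool.Agent.D0H96.RO.Pw4
import Pool.Agent.D0H65.RO.One5
import Pool.Agent.D0H65.RO.Gen5

/-! Everything except the counts of the triples, with the right order of magnitude. -/

set_option autoImplicit false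

namespace Pool.Agent.D0H61.RO

open Pool.Agent.D0H61.CC Pool.Agent.D0H61.CP

theorem gen4_of_cnt (h : S_CNT) : S_GEN4 :=
  Pool.Agent.D0H96.RO.t_GEN4 (Pool.Agent.D0H96.RO.t_ONE4
    (t_CORE4 (Pool.Agent.D0H35.CC.t_GEO h)
      (Pool.Agent.D0H96.CC.t_SV (Pool.Agent.D0H9.CC.t_LO Pool.Agent.D0H9.CC.t_OSC)
        (Pool.Agent.D0H96.CC.t_HAT Pool.Agent.D0H87.CC.t_TRI)))
    Pool.Agent.D0H87.CC.t_DEN Pool.Agent.D0H70.RO.t_WIN4)

theorem gen5_of_cnt2 (hz : S_ZP) (h : S_CNT2) : S_GEN5 :=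
  have hpw : S_PW := Pool.Agent.D0H65.CP.t_PW hz
  Pool.Agent.D0H65.RO.t_GEN5 (Pool.Agent.D0H65.RO.t_ONE5 hpw (Pool.Agent.D0H96.RO.t_PW4 hz)
    (t_CORE5 hpw (Pool.Agent.D0H35.CP.t_GEO2 hpw h)
      (Pool.Agent.D0H41.CP.t_SV2 (Pool.Agent.D0H9.CP.t_LO2 Pool.Agent.D0H9.CC.t_OSC)
        (Pool.Agent.D0H96.CC.t_HAT Pool.Agent.D0H87.CC.t_TRI)))
    Pool.Agent.D0H87.CC.t_DEN)

end Pool.Agent.D0H61.RO
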